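import Mathlib
import Pool.Agent.PRT.FIN2T

/-!
# MP_174f8d_nt: no concentration of `p(n)^{1/k}` modulo one at exponentially small scales

For every `k ≥ 2` and `κ, ε > 0` there are `δ > 0` and `N₀` such that, for `N ≥ N₀`,
`N^{1/2+ε} ≤ M ≤ N` and every real polynomial `T` with `deg T ≤ δ √N / log N`
(for instance a constant), at most `M N^{-δ}` of the integers `n` in `[N, N+M]`
satisfy `|p(n)^{1/k} - T(n) - a/q| ≤ exp(-κ √n)` for some integers `a` and `1 ≤ q ≤ exp(δ √n)`.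

The proof is in `Pool/Agent/PRT`: Hardy-Ramanujan asymptotics with the two major arcs at `±1`,
interpolation determinants with the columns `C(x-N, i)` and `C(x-N, i) a_x/q_x`, and a small value
estimate for `P₀ + P₁ e^φ`.  The global form for constants and the consequences for perfect powers
are the theorems `PRT.global_bound_q`, `PRT.far_from_powers` and `PRT.perfect_powers`.
-/

namespace Pool.Agent.Results.MP_174f8d_nt.NoConcentration

theorem result (k : ℕ) (hk : 2 ≤ k) (κ ε : ℝ) (hκ : 0 < κ) (hε : 0 < ε) :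
    ∃ δ : ℝ, 0 < δ ∧ ∃ N₀ : ℕ, ∀ N M : ℕ, N₀ ≤ N → (N : ℝ) ^ (1 / 2 + ε) ≤ M → M ≤ N →
      ∀ T : Polynomial ℝ, (T.natDegree : ℝ) * Real.log N ≤ δ * Real.sqrt N →
        (({n : ℕ | N ≤ n ∧ n ≤ N + M ∧ ∃ a : ℤ, ∃ q : ℕ, 1 ≤ q ∧
            (q : ℝ) ≤ Real.exp (δ * Real.sqrt n) ∧
            |(Fintype.card (Nat.Partition n) : ℝ) ^ ((1 : ℝ) / k) - T.eval (n : ℝ) - (a : ℝ) / q| ≤
              Real.exp (-κ * Real.sqrt n)}.ncard : ℕ) : ℝ)
          ≤ M * (N : ℝ) ^ (-δ) := by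
  obtain ⟨δ, hδ, N₀, h⟩ := PRT.short_intervals_T hk hκ hε
  refine ⟨δ, hδ, N₀, fun N M hN hM hMN T hT => ?_⟩
  have h1 := h N hN M hM hMN T hT
  have h2 : {n : ℕ | N ≤ n ∧ n ≤ N + M ∧ ∃ a : ℤ, ∃ q : ℕ, 1 ≤ q ∧
            (q : ℝ) ≤ Real.exp (δ * Real.sqrt n) ∧
            |(Fintype.card (Nat.Partition n) : ℝ) ^ ((1 : ℝ) / k) - T.eval (n : ℝ) - (a : ℝ) / q| ≤
              Real.exp (-κ * Real.sqrt n)} =
      {n : ℕ | N ≤ n ∧ n ≤ N + M ∧ n ∈ PRT.NearT k κ δ T} := by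
    ext n
    simp only [Set.mem_setOf_eq, PRT.NearT, PRT.pc, and_assoc]
  rw [h2]
  exact h1

end Pool.Agent.Results.MP_174f8d_nt.NoConcentration
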