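import Mathlib
import Pool.Agent.QPL.FIN

/-!
# MP_174f8d_nt: `p(n)^{1/k}` modulo one in every short interval

For every `k ≥ 2` there are `C` and `N₀` such that for all `N ≥ N₀`, all real `H` with
`C √N (log N)² ≤ H ≤ N`, all real polynomials `T` with `C deg T log N ≤ √N` (for instance constants) and
all `q ≥ 1` with `log q ≤ (N/H) (log N)² + (log N)⁴`, the interval `[N, N + H]` contains an integer `n`
with `|p(n)^{1/k} - T(n) - a/q| > exp(-C ((N/H) (log N)² + (log N)⁴))` for all integers `a`.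

The proof is in `Pool/Agent/QPL`: finite differences of order about `√N / log N` whose steps form a
pure product `∏ (X^{r_i} - 1)` with small coefficient sum (greedy selection of blocks
`(X - 1)(X² - 1)⋯(X^n - 1)`, as in the construction of Belov and Konyagin), a saddle point argument for
all derivatives of `exp φ`, and the formula of Hardy and Ramanujan with two terms.
-/

namespace Pool.Agent.Results.MP_174f8d_nt.ShortIntervals

theorem result (k : ℕ) (hk : 2 ≤ k) : ∃ C : ℝ, 0 < C ∧ ∃ N₀ : ℕ, ∀ N : ℕ, N₀ ≤ N →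
    ∀ H : ℝ, C * Real.sqrt N * Real.log N ^ 2 ≤ H → H ≤ N →
    ∀ T : Polynomial ℝ, C * (T.natDegree : ℝ) * Real.log N ≤ Real.sqrt N →
    ∀ q : ℕ, 1 ≤ q → Real.log q ≤ N / H * Real.log N ^ 2 + Real.log N ^ 4 →
      ∃ n : ℕ, N ≤ n ∧ (n : ℝ) ≤ N + H ∧ ∀ a : ℤ,
        Real.exp (-(C * (N / H * Real.log N ^ 2 + Real.log N ^ 4))) <
          |(Fintype.card (Nat.Partition n) : ℝ) ^ ((1 : ℝ) / k) - T.eval (n : ℝ) - (a : ℝ) / q| :=
  QPL.main hk

end Pool.Agent.Results.MP_174f8d_nt.ShortIntervals
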